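import Mathlib
import Pool.Agent.H2.WN2

namespace Pool.Agent.Results.MP_768068_al.WeaklyNoetherian

section Definitions

/-! A (nonassociative) algebra over the field `K` is a vector space `A` with a bilinear product
`μ : A →ₗ[K] A →ₗ[K] A`. -/

variable {K A : Type} [Field K] [AddCommGroup A] [Module K A] (μ : A →ₗ[K] A →ₗ[K] A)

/-- The algebra is associative. -/
def IsAssociative : Prop := ∀ a b c, μ (μ a b) c = μ a (μ b c)

/-- The algebra is alternative. -/
def IsAlternative : Prop := ∀ a b, μ (μ a a) b = μ a (μ a b) ∧ μ (μ b a) a = μ b (μ a a)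

/-- The algebra is a Jordan algebra. -/
def IsJordan : Prop :=
  (∀ a b, μ a b = μ b a) ∧ ∀ a b, μ (μ a b) (μ a a) = μ a (μ b (μ a a))

/-- `I` is a two-sided ideal. -/
def IsIdeal (I : Submodule K A) : Prop := ∀ a ∈ I, ∀ b, μ a b ∈ I ∧ μ b a ∈ I

/-- Weakly Noetherian: the ascending chain condition on two-sided ideals. -/
def IsWeaklyNoetherian : Prop :=
  ∀ I : ℕ → Submodule K A, (∀ n, IsIdeal μ (I n)) → (∀ n, I n ≤ I (n + 1)) →
    ∃ N, ∀ n, N ≤ n → I n = I N

/-- `IsProd μ S n a`: `a` is a product of `n` elements of `S`, with some arrangement of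
parentheses. -/
inductive IsProd (S : Set A) : ℕ → A → Prop
  | of {a : A} : a ∈ S → IsProd S 1 a
  | mul {m n : ℕ} {a b : A} : IsProd S m a → IsProd S n b → IsProd S (m + n) (μ a b)

/-- `S` is nilpotent: for some `n ≥ 1` each product of `n` elements of `S` vanishes, for every
arrangement of parentheses. -/
def IsNilpotentSubalgebra (S : Submodule K A) : Prop :=
  ∃ n : ℕ, 1 ≤ n ∧ ∀ a, IsProd μ (S : Set A) n a → a = 0

/-- The subalgebra generated by `F`. -/
def generated (F : Set A) : Submodule K A :=
  sInf {S | F ⊆ S ∧ ∀ a ∈ S, ∀ b ∈ S, μ a b ∈ S}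

/-- `I` is locally nilpotent: the subalgebra generated by any finite subset is nilpotent. -/
def IsLocallyNilpotent (I : Submodule K A) : Prop :=
  ∀ F : Finset A, (F : Set A) ⊆ I → IsNilpotentSubalgebra μ (generated μ (F : Set A))

/-- `L` is the locally nilpotent radical: the largest locally nilpotent ideal. -/
def IsLocallyNilpotentRadical (L : Submodule K A) : Prop :=
  IsIdeal μ L ∧ IsLocallyNilpotent μ L ∧
    ∀ I : Submodule K A, IsIdeal μ I → IsLocallyNilpotent μ I → I ≤ L

/-- `A` is weakly Noetherian but its locally nilpotent radical is not nilpotent. -/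
def IsCounterexample : Prop :=
  IsWeaklyNoetherian μ ∧
    ∃ L : Submodule K A, IsLocallyNilpotentRadical μ L ∧ ¬ IsNilpotentSubalgebra μ L

end Definitions

section proof

open Pool.Agent.H2.WN

variable (K : Type) [Field K]

theorem one_ne_zero_A : (1 : A K) ≠ 0 := by
  intro h
  have h1 : o K 0 1 = 0 := by rw [map_one, h]
  have h2 := eq_zero_of_o K h1
  have u : W 0 := ()
  have h3 := congrFun (congrFun h2 u) u
  have h4 : (1 : G K 0) u u = 1 := Matrix.one_apply_eq u
  rw [h4] at h3
  have h5 := prod_ne_zero K (k := 0)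
  rw [Finset.univ_eq_empty, Finset.prod_empty] at h5
  exact h5 h3

theorem general (μ : A K →ₗ[K] A K →ₗ[K] A K)
    (h1 : ∀ I : Submodule K (A K), IsIdeal μ I → Cl K I)
    (h2 : ∀ k m n (f g : G K k), P K m k f → P K n k g →
      ∃ h, μ (o K k f) (o K k g) = o K k h ∧ P K (m + n) k h)
    (h4 : μ 1 1 = 1)
    (h5 : ∀ k (a b : C K k), μ (o K k (Matrix.scalar _ a)) (o K k (Matrix.scalar _ b)) =
      o K k (Matrix.scalar _ (a * b))) : IsCounterexample μ := by
  classical
  -- products in a stage
  have hprod : ∀ (k : ℕ) (S : Set (A K)), (∀ a ∈ S, ∃ f, a = o K k f ∧ P K 1 k f) →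
      ∀ n a, IsProd μ S n a → ∃ f, a = o K k f ∧ P K n k f := by
    intro k S hS n a ha
    induction ha with
    | of ha => exact hS _ ha
    | mul _ _ iha ihb =>
      obtain ⟨f, rfl, hf⟩ := iha
      obtain ⟨g, rfl, hg⟩ := ihb
      obtain ⟨h, hh, hh'⟩ := h2 k _ _ f g hf hg
      exact ⟨h, hh, hh'⟩
  have hL1 : IsIdeal μ (L K 1) := by
    intro a ha b
    obtain ⟨k, f, g, rfl, rfl⟩ := exists_rep₂ K a b
    rw [mem_L] at ha
    have hg : P K 0 k g := fun u v => by simp
    obtain ⟨p, hp, hp'⟩ := h2 k 1 0 f g ha hg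
    obtain ⟨q, hq, hq'⟩ := h2 k 0 1 g f hg ha
    rw [hp, hq, mem_L, mem_L]
    exact ⟨hp', by simpa using hq'⟩
  refine ⟨?_, L K 1, ⟨hL1, ?_, ?_⟩, ?_⟩
  · -- ACC
    intro I hI hmono
    have hmono' : Monotone I := monotone_nat_of_le_succ hmono
    by_cases hz : ∀ n, I n = ⊥
    · exact ⟨0, fun n _ => by rw [hz, hz]⟩
    · push Not at hz
      obtain ⟨n0, hn0⟩ := hz
      obtain ⟨a0, ha0, ha0'⟩ := Submodule.exists_mem_ne_zero_of_ne_bot hn0
      have hex : ∃ n, ∃ j, ∃ a ∈ I j, a ∉ L K (n + 1) := by
        obtain ⟨k, f, rfl⟩ := exists_rep K a0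
        refine ⟨k, n0, _, ha0, ?_⟩
        rw [mem_L]
        intro h
        apply ha0'
        rw [P_top K h, map_zero]
      obtain ⟨j, a, haj, han⟩ := Nat.find_spec hex
      set n := Nat.find hex with hn
      have hsub : ∀ j, I j ≤ L K n := by
        intro j b hb
        by_contra hbn
        rcases Nat.eq_zero_or_pos n with h0 | h0
        · rw [h0] at hbn
          exact hbn (mem_LL_zero K b)
        · have := Nat.find_min hex (m := n - 1) (by omega)
          apply this
          refine ⟨j, b, hb, ?_⟩
          rw [Nat.sub_add_cancel h0]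
          exact hbn
      have hle : L K n ≤ I j := main K (h1 _ (hI j)) haj (hsub j haj) han
      refine ⟨j, fun i hi => ?_⟩
      exact le_antisymm ((hsub i).trans hle) (hmono' hi)
  · -- locally nilpotent
    intro F hF
    -- common stage
    have hst : ∃ k, ∀ a ∈ F, ∃ f, a = o K k f ∧ P K 1 k f := by
      clear h1 h2 h4 h5 hprod hL1
      induction F using Finset.induction_on with
      | empty => exact ⟨0, by simp⟩
      | insert a F _ ih =>
        rw [Finset.coe_insert, Set.insert_subset_iff] at hF
        obtain ⟨k, hk⟩ := ih hF.2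
        obtain ⟨l, g, hl, rfl⟩ := exists_rep_ge K a k
        have hg := (mem_L K).1 hF.1
        refine ⟨l, ?_⟩
        intro b hb
        rw [Finset.mem_insert] at hb
        rcases hb with rfl | hb
        · exact ⟨g, rfl, hg⟩
        · obtain ⟨f, rfl, hf⟩ := hk b hb
          exact ⟨tr K k l hl f, (o_tr K _ _ _ _).symm, (P_tr K _ _ _ _ _).2 hf⟩
    obtain ⟨k, hk⟩ := hst
    let S : Submodule K (A K) :=
      { carrier := {a | ∃ f, a = o K k f ∧ P K 1 k f}
        zero_mem' := ⟨0, (map_zero _).symm, fun u v => zero_mem _⟩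
        add_mem' := by
          rintro _ _ ⟨f, rfl, hf⟩ ⟨g, rfl, hg⟩
          exact ⟨f + g, (map_add _ _ _).symm, P_add K hf hg⟩
        smul_mem' := by
          rintro c _ ⟨f, rfl, hf⟩
          exact ⟨c • f, (map_smul _ _ _).symm, P_smul K c hf⟩ }
    have hS : generated μ (F : Set (A K)) ≤ S := by
      apply sInf_le
      refine ⟨fun a ha => hk a ha, ?_⟩
      rintro _ ⟨f, rfl, hf⟩ _ ⟨g, rfl, hg⟩
      obtain ⟨h, hh, hh'⟩ := h2 k 1 1 f g hf hg
      exact ⟨h, hh, P_mono K (by omega) hh'⟩
    refine ⟨k + 1, by omega, ?_⟩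
    intro a ha
    obtain ⟨f, rfl, hf⟩ := hprod k _ (fun a ha => hS ha) _ a ha
    rw [P_top K hf, map_zero]
  · -- largest
    intro I hI hIn
    by_contra hcon
    obtain ⟨a, ha, ha'⟩ := Set.not_subset.1 hcon
    have hle : L K 0 ≤ I := main K (h1 I hI) ha (mem_LL_zero K a) ha'
    have h1I : (1 : A K) ∈ I := hle (mem_LL_zero K 1)
    obtain ⟨n, hn, hn'⟩ := hIn {1} (by simpa using h1I)
    have h1g : (1 : A K) ∈ generated μ (({1} : Finset (A K)) : Set (A K)) := by
      rw [generated, Submodule.mem_sInf]
      intro S hS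
      exact hS.1 (by simp)
    have : ∀ n, 1 ≤ n → IsProd μ (generated μ (({1} : Finset (A K)) : Set (A K)) : Set (A K))
        n 1 := by
      intro n hn
      induction n, hn using Nat.le_induction with
      | base => exact IsProd.of h1g
      | succ n _ ih =>
        have := IsProd.mul ih (IsProd.of h1g)
        rw [h4] at this
        exact this
    exact one_ne_zero_A K (hn' 1 (this n hn))
  · -- not nilpotent
    rintro ⟨n, hn, hn'⟩
    have hx : ∀ i : Fin n, o K n (Matrix.scalar _ (x K i)) ∈ L K 1 := by
      intro i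
      rw [mem_L]
      intro u v
      rw [Matrix.scalar_apply, Matrix.diagonal_apply, pow_one (m K n)]
      split_ifs
      · exact x_mem K i
      · exact zero_mem _
    have hl : ∀ l : List (Fin n), l ≠ [] → IsProd μ (L K 1 : Set (A K)) l.length
        (o K n (Matrix.scalar _ (l.map (x K)).prod)) := by
      intro l hl
      induction l with
      | nil => exact absurd rfl hl
      | cons i l ih =>
        by_cases h : l = []
        · subst h
          simp only [List.map_cons, List.map_nil, List.prod_cons, List.prod_nil, mul_one]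
          exact IsProd.of (hx i)
        · have := IsProd.mul (IsProd.of (hx i)) (ih h)
          rw [h5, add_comm] at this
          rw [List.map_cons, List.prod_cons]
          exact this
    have h6 := hl (List.finRange n) (by
      intro h
      have := congrArg List.length h
      rw [List.length_finRange] at this
      simp at this
      omega)
    rw [List.length_finRange] at h6
    have h7 := eq_zero_of_o K (hn' _ h6)
    obtain ⟨u⟩ := instNeW n
    have h8 := congrFun (congrFun h7 u) u
    rw [Matrix.scalar_apply, Matrix.diagonal_apply_eq, ← Fin.prod_univ_def] at h8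
    exact prod_ne_zero K h8

theorem assoc_part : IsCounterexample (LinearMap.mul K (A K)) := by
  apply general
  · intro I hI k f hf u v w z s
    have h1 := (hI _ hf (o K k (Matrix.single v z 1))).1
    have h2 := (hI _ h1 (o K k (Matrix.single w u s))).2
    rw [LinearMap.mul_apply', LinearMap.mul_apply', ← map_mul, ← map_mul, ← mul_assoc,
      Matrix.single_mul_mul_single, mul_one] at h2
    exact h2
  · intro k m n f g hf hg
    refine ⟨f * g, ?_, P_mul K hf hg⟩
    rw [LinearMap.mul_apply', map_mul]
  · rw [LinearMap.mul_apply', mul_one]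
  · intro k a b
    rw [LinearMap.mul_apply', ← map_mul, ← map_mul]

/-- The Jordan product `(ab + ba)/2`. -/
noncomputable def jmul : A K →ₗ[K] A K →ₗ[K] A K :=
  (2⁻¹ : K) • (LinearMap.mul K (A K) + (LinearMap.mul K (A K)).flip)

theorem jmul_apply (a b : A K) : jmul K a b = (2⁻¹ : K) • (a * b + b * a) := by
  simp [jmul]

variable {K} in
theorem half (h2 : (2 : K) ≠ 0) (a : A K) : (2⁻¹ : K) • (a + a) = a := by
  rw [← two_smul K a, smul_smul, inv_mul_cancel₀ h2, one_smul]

variable {K} in
theorem jordan (h2 : (2 : K) ≠ 0) : IsJordan (jmul K) := by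
  constructor
  · intro a b
    rw [jmul_apply, jmul_apply, add_comm]
  · intro a b
    have haa : jmul K a a = a * a := by rw [jmul_apply, half h2]
    rw [haa]
    simp only [jmul_apply]
    simp only [mul_smul_comm, smul_mul_assoc, ← smul_add]
    congr 2
    noncomm_ring

variable {K} in
theorem jideal (h2 : (2 : K) ≠ 0) (I : Submodule K (A K)) (hI : IsIdeal (jmul K) I) :
    Cl K I := by
  classical
  have T : ∀ a ∈ I, ∀ b : A K, a * b + b * a ∈ I := by
    intro a ha b
    have h := (hI a ha b).1
    rw [jmul_apply] at h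
    have h' := I.smul_mem (2 : K) h
    rw [smul_smul, mul_inv_cancel₀ h2, one_smul] at h'
    exact h'
  have hhalf : ∀ a, a + a ∈ I → a ∈ I := by
    intro a ha
    have := I.smul_mem (2⁻¹ : K) ha
    rw [half h2] at this
    exact this
  have U : ∀ a ∈ I, ∀ b : A K, b * a * b ∈ I := by
    intro a ha b
    apply hhalf
    have h1 := T _ (T a ha b) b
    have h3 := T a ha (b * b)
    have : b * a * b + b * a * b = ((a * b + b * a) * b + b * (a * b + b * a)) -
        (a * (b * b) + b * b * a) := by noncomm_ring
    rw [this]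
    exact sub_mem h1 h3
  have U2 : ∀ a ∈ I, ∀ b c : A K, b * a * c + c * a * b ∈ I := by
    intro a ha b c
    have : b * a * c + c * a * b = (b + c) * a * (b + c) - b * a * b - c * a * c := by
      noncomm_ring
    rw [this]
    exact sub_mem (sub_mem (U a ha _) (U a ha _)) (U a ha _)
  intro k f hf u v w z s
  let e : W k → W k → C K k → A K := fun w z r => o K k (Matrix.single w z r)
  have e_mul : ∀ (a b c d : W k) (r t : C K k),
      e a b r * e c d t = if b = c then e a d (r * t) else 0 := by
    intro a b c d r t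
    simp only [e]
    rw [← map_mul]
    split_ifs with h
    · subst h
      rw [Matrix.single_mul_single_same]
    · rw [Matrix.single_mul_single_of_ne _ _ _ _ h, map_zero]
  have e_f : ∀ a b c d : W k, e a b 1 * o K k f * e c d 1 = e a d (f b c) := by
    intro a b c d
    simp only [e]
    rw [← map_mul, ← map_mul, Matrix.single_mul_mul_single, one_mul, mul_one]
  -- step 1, 2
  have s12 : e u u (f u v) ∈ I := by
    by_cases huv : u = v
    · subst huv
      rw [← e_f]
      exact U _ hf _
    · have h1 := U2 _ hf (e u u 1) (e v v 1)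
      rw [e_f, e_f] at h1
      have h3 := T _ h1 (e v u 1)
      have h4 : (e u v (f u v) + e v u (f v u)) * e v u 1 +
          e v u 1 * (e u v (f u v) + e v u (f v u)) = e u u (f u v) + e v v (f u v) := by
        rw [add_mul, mul_add, e_mul, e_mul, e_mul, e_mul, if_pos rfl, if_neg huv, if_pos rfl,
          if_neg huv, mul_one, one_mul, add_zero, add_zero]
      rw [h4] at h3
      have h5 := U _ h3 (e u u 1)
      have h6 : e u u 1 * (e u u (f u v) + e v v (f u v)) * e u u 1 = e u u (f u v) := by
        rw [mul_add, add_mul, e_mul, e_mul, if_pos rfl, if_neg huv, zero_mul, add_zero, one_mul,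
          e_mul, if_pos rfl, mul_one]
      rw [h6] at h5
      exact h5
  have s3a : e u u (s * f u v) ∈ I := by
    apply hhalf
    have h3 := T _ s12 (e u u s)
    rw [e_mul, e_mul, if_pos rfl, mul_comm (f u v) s, if_pos rfl] at h3
    exact h3
  have s3b : ∀ (a b : W k) (r : C K k), e a a r ∈ I → e a b r ∈ I := by
    intro a b r hr
    by_cases hab : a = b
    · subst hab; exact hr
    · have h3 := T _ hr (e a b 1)
      rw [e_mul, e_mul, if_pos rfl, if_neg (Ne.symm hab), mul_one, add_zero] at h3
      exact h3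
  have s3c : ∀ (a b : W k) (r : C K k), e a a r ∈ I → e b b r ∈ I := by
    intro a b r hr
    have h3 := T _ (s3b a b r hr) (e b a 1)
    rw [e_mul, e_mul, if_pos rfl, if_pos rfl, mul_one, one_mul] at h3
    have := sub_mem h3 hr
    rw [add_sub_cancel_left] at this
    exact this
  exact s3b w z _ (s3c u w _ s3a)

variable {K} in
theorem jordan_part (h2 : (2 : K) ≠ 0) : IsCounterexample (jmul K) := by
  apply general
  · exact jideal h2
  · intro k m n f g hf hg
    refine ⟨(2⁻¹ : K) • (f * g + g * f), ?_, ?_⟩
    · rw [jmul_apply, map_smul, map_add, map_mul, map_mul]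
    · refine P_smul K _ (P_add K (P_mul K hf hg) ?_)
      rw [add_comm]
      exact P_mul K hg hf
  · rw [jmul_apply, mul_one, half h2]
  · intro k a b
    rw [jmul_apply, ← map_mul, ← map_mul, ← map_mul, ← map_mul, mul_comm b a, half h2]

end proof

/-- Over every field `K` there is an associative algebra, and hence an alternative algebra, which
is weakly Noetherian but whose locally nilpotent radical is not nilpotent; if `2 ≠ 0` in `K`
there is also such a Jordan algebra. -/
theorem result (K : Type) [Field K] :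
    (∃ (A : Type) (_ : AddCommGroup A) (_ : Module K A) (μ : A →ₗ[K] A →ₗ[K] A),
      IsAssociative μ ∧ IsCounterexample μ) ∧
    (∃ (A : Type) (_ : AddCommGroup A) (_ : Module K A) (μ : A →ₗ[K] A →ₗ[K] A),
      IsAlternative μ ∧ IsCounterexample μ) ∧
    ((2 : K) ≠ 0 →
      ∃ (A : Type) (_ : AddCommGroup A) (_ : Module K A) (μ : A →ₗ[K] A →ₗ[K] A),
        IsJordan μ ∧ IsCounterexample μ) := by
  refine ⟨⟨Pool.Agent.H2.WN.A K, inferInstance, inferInstance, LinearMap.mul K _, ?_,
    assoc_part K⟩, ⟨Pool.Agent.H2.WN.A K, inferInstance, inferInstance, LinearMap.mul K _, ?_,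
    assoc_part K⟩, fun h2 => ⟨Pool.Agent.H2.WN.A K, inferInstance, inferInstance, jmul K,
    jordan h2, jordan_part h2⟩⟩
  · intro a b c
    simp only [LinearMap.mul_apply', mul_assoc]
  · intro a b
    simp only [LinearMap.mul_apply', mul_assoc, and_self]

end Pool.Agent.Results.MP_768068_al.WeaklyNoetherian
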